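import Pool.Agent.H798.BV.Stm5

/-!
# MP_172a45_an: second order expansion of a product (helper322 for helper798)
-/

set_option autoImplicit false

namespace Pool.Agent.H322.BV

open Pool.Agent.H798.BV

theorem log_bound {x : ℂ} (hx : ‖x‖ ≤ 1 / 4) :
    ‖Complex.log (1 - x) + x + x ^ 2 / 2‖ ≤ ‖x‖ ^ 3 / 2 := by
  have h := Complex.norm_log_sub_logTaylor_le 2 (z := -x) (by rw [norm_neg]; linarith)
  have e : Complex.logTaylor (2 + 1) (-x) = -x - x ^ 2 / 2 := by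
    rw [Complex.logTaylor_succ, Complex.logTaylor_succ, Complex.logTaylor_succ,
      Complex.logTaylor_zero]
    simp
    ring
  rw [e, norm_neg] at h
  have e2 : Complex.log (1 + -x) - (-x - x ^ 2 / 2) = Complex.log (1 - x) + x + x ^ 2 / 2 := by
    rw [← sub_eq_add_neg]; ring
  rw [e2] at h
  refine h.trans ?_
  have h0 : 0 ≤ ‖x‖ ^ 3 := by positivity
  have h1 : (1 - ‖x‖)⁻¹ ≤ 4 / 3 := by
    rw [inv_le_comm₀ (by linarith) (by norm_num)]
    linarith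
  have h2 : ‖x‖ ^ (2 + 1) * (1 - ‖x‖)⁻¹ ≤ ‖x‖ ^ 3 * (4 / 3) :=
    mul_le_mul_of_nonneg_left h1 h0
  have h3 : ((2 : ℕ) : ℝ) + 1 = 3 := by norm_num
  rw [h3]
  linarith

theorem t_TR : S_TR := by
  intro m l A L u hL hl hsum hu
  have hx : ∀ k ∈ A, ‖u * l k‖ ≤ 1 / 4 := by
    intro k hk
    rw [norm_mul]
    exact (mul_le_mul_of_nonneg_left (hl k hk) (norm_nonneg u)).trans hu
  refine ⟨∑ k ∈ A, (Complex.log (1 - u * l k) + u * l k + (u * l k) ^ 2 / 2), ?_, ?_⟩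
  · refine (norm_sum_le _ _).trans ?_
    have h1 : ∀ k ∈ A, ‖Complex.log (1 - u * l k) + u * l k + (u * l k) ^ 2 / 2‖ ≤
        ‖u‖ ^ 3 * L ^ 2 / 2 * ‖l k‖ := by
      intro k hk
      refine (log_bound (hx k hk)).trans ?_
      rw [norm_mul]
      have h2 : ‖l k‖ ^ 2 ≤ L ^ 2 := pow_le_pow_left₀ (norm_nonneg _) (hl k hk) 2
      have h3 : ‖u‖ ^ 3 * ‖l k‖ * ‖l k‖ ^ 2 ≤ ‖u‖ ^ 3 * ‖l k‖ * L ^ 2 :=
        mul_le_mul_of_nonneg_left h2 (by positivity)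
      nlinarith [h3]
    refine (Finset.sum_le_sum h1).trans ?_
    rw [← Finset.mul_sum]
    calc ‖u‖ ^ 3 * L ^ 2 / 2 * ∑ k ∈ A, ‖l k‖ ≤ ‖u‖ ^ 3 * L ^ 2 / 2 * m :=
          mul_le_mul_of_nonneg_left hsum (by positivity)
      _ = m * ‖u‖ ^ 3 * L ^ 2 / 2 := by ring
  · have e1 : -(u * ∑ k ∈ A, l k) - u ^ 2 * (∑ k ∈ A, l k ^ 2) / 2 +
        ∑ k ∈ A, (Complex.log (1 - u * l k) + u * l k + (u * l k) ^ 2 / 2) =
        ∑ k ∈ A, Complex.log (1 - u * l k) := by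
      rw [Finset.sum_add_distrib, Finset.sum_add_distrib, Finset.mul_sum, Finset.mul_sum,
        Finset.sum_div]
      have e2 : ∑ k ∈ A, (u * l k) ^ 2 / 2 = ∑ k ∈ A, u ^ 2 * l k ^ 2 / 2 :=
        Finset.sum_congr rfl fun k _ => by ring
      rw [e2]
      ring
    rw [e1, Complex.exp_sum]
    refine Finset.prod_congr rfl fun k hk => ?_
    rw [Complex.exp_log]
    intro h0
    have h1 : u * l k = 1 := (sub_eq_zero.1 h0).symm
    have h2 := hx k hk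
    rw [h1, norm_one] at h2
    norm_num at h2

end Pool.Agent.H322.BV
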